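import Pool.Agent.H872.PC.All

/-!
# The Pisot substitution conjecture for all cubic companion matrices

Letters are `0, 1, 2`. `inc σ` is the incidence matrix of `σ` (entry `(i,j)`: number of letters `i`
in `σ j`), `compList [τ₁, ..., τ_k] = τ₁ ∘ ... ∘ τ_k`, `PisotMat M` says that `M` is unimodular,
irreducible and Pisot as in the problem file, `SemiConjToral σ` says that the subshift of `σ` is
semi-conjugate to a minimal toral translation as in the problem file (all four from the library
`Pool/Agent/H812R2/PI`).

Let `a, b ≥ 0` be integers and let `l` be a nonempty list of substitutions with the incidence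
matrix `[a, b, 1; 1, 0, 0; 0, 1, 0]`, the companion matrix of `x^3 - a x^2 - b x - 1`; so each of
them maps `0` to any arrangement of `a` letters `0` and one letter `1`, maps `1` to any arrangement
of `b` letters `0` and one letter `2`, and maps `2` to `0`. Then the composition of `l` is a
unimodular irreducible Pisot substitution if and only if `b ≤ a + 1` and `(a, b) ≠ (0, 0)`, and in
this case its subshift is semi-conjugate to a minimal toral translation.

Proof: the number of edges of the path of `S(u)` which are not edges of the path of `S(v)`, for
words `u`, `v` with the same letters, is subadditive. For `b < a` it is bounded with weights of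
transpositions (library `Q132/PT`). In the borderline cases `b = a` and `b = a + 1` transpositions
are not sufficient: the costs of moving `1` or `2` over a block of `k` zeros and of exchanging `1`
and `2` around a block of `k` zeros satisfy linear recursions in `k` with explicit weights for
`a ≥ 2` and `a ≥ 4`; `(3, 4)` is a finite recursion of the same kind, `(1, 1)`, `(1, 2)`,
`(2, 3)` are balanced pair certificates valid for all compositions, and `(0, 1)` is such a
certificate for products of five factors, checked by the kernel.
-/

set_option autoImplicit false

namespace Pool.Agent.Results.MP_e732b0_an.CubicCompanion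

open Pool.Agent.H812R2.PI

theorem result (a b : ℕ) (l : List (Fin 3 → List (Fin 3))) (hne : l ≠ [])
    (hl : ∀ τ ∈ l, inc τ = !![(a : ℤ), (b : ℤ), 1; 1, 0, 0; 0, 1, 0]) :
    (PisotMat (inc (compList l)) ↔ b ≤ a + 1 ∧ 1 ≤ a + b) ∧
      (PisotMat (inc (compList l)) → SemiConjToral (compList l)) :=
  Pool.Agent.H872.PC.all_iff a b l hne fun τ hτ => Pool.Agent.H872.PC.C3.of_inc (hl τ hτ)

end Pool.Agent.Results.MP_e732b0_an.CubicCompanion
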