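import Pool.Agent.H872.PC.MixAll

/-!
# The Pisot substitution conjecture for all products of Jacobi-Perron matrices, all letter orders

Letters are `0, 1, 2`. `inc σ` is the incidence matrix of `σ` (entry `(i,j)`: number of letters `i`
in `σ j`), `compList [τ₁, ..., τ_k] = τ₁ ∘ ... ∘ τ_k`, `PisotMat M` says that `M` is unimodular,
irreducible and Pisot as in the problem file, `SemiConjToral σ` says that the subshift of `σ` is
semi-conjugate to a minimal toral translation as in the problem file (all four from the library
`Pool/Agent/H812R2/PI`).

Let `l` be a nonempty list of substitutions, each with an incidence matrix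
`[a, b, 1; 1, 0, 0; 0, 1, 0]` with `a ≥ 1` and `0 ≤ b ≤ a` (the matrices of the Jacobi-Perron
algorithm), where the pair `(a, b)` and the letter orders may be different for the different members
of the list. Then the composition of `l` is a unimodular irreducible Pisot substitution, and
its subshift is semi-conjugate to a minimal toral translation.

Proof: let `F`, `G`, `H` bound the costs of the transpositions `01`, `02`, `12` after the
composition `S` (the number of edges of the path of `S(xy)` which are not edges of the path of
`S(yx)`), with the recursion `F' = b F + a G + H`, `G' = F`, `H' = G`, and let `L0`, `L1`, `L2` be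
the lengths of `S(0)`, `S(1)`, `S(2)`. The inequalities `F + G ≤ K L0`, `G + H ≤ K L2`,
`2 F + G + H ≤ K (L0 + L1)`, `2 G ≤ K L0`, `F + 3 G + 2 H ≤ K (L0 + L1 + L2)` are preserved by every
step with `b ≤ a`, and a step with `b < a` followed by any step allows a smaller `K`. If `b = a` in
all steps, then three steps of which the last has `a ≥ 2` cost `2 F` less than the recursion (moves
over blocks of zeros), which again allows a smaller `K`; if `(a, b) = (1, 1)` in all steps, there is a
balanced pair certificate. So the costs are exponentially smaller than the lengths. The same
numbers bound the `2 × 2` minors of the incidence matrix, which gives the Pisot property.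
-/

set_option autoImplicit false

namespace Pool.Agent.Results.MP_e732b0_an.CubicMixed

open Pool.Agent.H812R2.PI

theorem result (l : List (Fin 3 → List (Fin 3))) (hne : l ≠ [])
    (hl : ∀ τ ∈ l, ∃ a b : ℕ, b ≤ a ∧ 1 ≤ a ∧
      inc τ = !![(a : ℤ), (b : ℤ), 1; 1, 0, 0; 0, 1, 0]) :
    PisotMat (inc (compList l)) ∧ SemiConjToral (compList l) :=
  Pool.Agent.H872.PC.all_mixed l hne hl

end Pool.Agent.Results.MP_e732b0_an.CubicMixed
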